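import Pool.Agent.Q253.RankWidth.Upper
import Pool.Agent.Q253.TwoRank.Lower

/-!
Lexicographic powers of graphs of small rank over `F_2`.
-/

open Finset Module

set_option autoImplicit false
set_option linter.unusedSectionVars false
set_option linter.unusedVariables false

namespace Pool.Agent.Q253.RankWidth

open Classical

variable {V W : Type} [Fintype V] [Fintype W]

/-- the adjacency entry -/
noncomputable def ent {V : Type} (G : SimpleGraph V) (u v : V) : ZMod 2 := if G.Adj u v then 1 else 0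

/-- the cut of `S` factors through dimension `r`, with a functional which is one on `S` -/
def Fac {V : Type} (G : SimpleGraph V) (r : ℕ) (S : Finset V) : Prop :=
  ∃ (X Y : V → Fin r → ZMod 2) (y : Fin r → ZMod 2),
    (∀ u ∈ S, ∀ v, v ∉ S → ent G u v = X u ⬝ᵥ Y v) ∧ ∀ u ∈ S, X u ⬝ᵥ y = 1

theorem Fac.cutRank_le {G : SimpleGraph V} {r : ℕ} {S : Finset V} (h : Fac G r S) :
    cutRank G S ≤ r := by
  obtain ⟨X, Y, y, h1, -⟩ := h
  unfold cutRank
  have e : (Matrix.of fun (u : S) (v : (Sᶜ : Finset V)) =>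
      if G.Adj (u : V) (v : V) then (1 : ZMod 2) else 0) =
      (Matrix.of fun (u : S) (i : Fin r) => X u i) *
      (Matrix.of fun (i : Fin r) (v : (Sᶜ : Finset V)) => Y v i) := by
    ext u v
    have := h1 u u.2 v (by have := v.2; rwa [mem_compl] at this)
    rw [Matrix.mul_apply]
    exact this
  rw [e]
  calc _ ≤ (Matrix.of fun (u : S) (i : Fin r) => X u i).rank := Matrix.rank_mul_le_left _ _
    _ ≤ Fintype.card (Fin r) := Matrix.rank_le_card_width _
    _ = r := Fintype.card_fin r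

/-- lexicographic product -/
def lex {V W : Type} (G : SimpleGraph V) (H : SimpleGraph W) : SimpleGraph (V × W) where
  Adj p q := G.Adj p.1 q.1 ∨ (p.1 = q.1 ∧ H.Adj p.2 q.2)
  symm := ⟨by
    rintro p q (h | ⟨h1, h2⟩)
    · exact Or.inl h.symm
    · exact Or.inr ⟨h1.symm, h2.symm⟩⟩
  loopless := ⟨by
    rintro p (h | ⟨_, h⟩)
    · exact h.ne rfl
    · exact h.ne rfl⟩

theorem lex_compl (G : SimpleGraph V) (H : SimpleGraph W) : (lex G H)ᶜ = lex Gᶜ Hᶜ := by
  ext p q
  rw [SimpleGraph.compl_adj]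
  show _ ∧ ¬ (G.Adj p.1 q.1 ∨ (p.1 = q.1 ∧ H.Adj p.2 q.2)) ↔
    Gᶜ.Adj p.1 q.1 ∨ (p.1 = q.1 ∧ Hᶜ.Adj p.2 q.2)
  rw [SimpleGraph.compl_adj, SimpleGraph.compl_adj]
  constructor
  · rintro ⟨h1, h2⟩
    push Not at h2
    by_cases h3 : p.1 = q.1
    · refine Or.inr ⟨h3, fun h4 => h1 (Prod.ext h3 h4), h2.2 h3⟩
    · exact Or.inl ⟨h3, h2.1⟩
  · rintro (⟨h1, h2⟩ | ⟨h1, h2, h3⟩)
    · refine ⟨fun h => h1 (h ▸ rfl), ?_⟩
      rintro (h | ⟨h, _⟩)
      · exact h2 h
      · exact h1 h
    · refine ⟨fun h => h2 (h ▸ rfl), ?_⟩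
      rintro (h | ⟨_, h⟩)
      · exact h.ne h1
      · exact h3 h

theorem lex_clique (G : SimpleGraph V) (H : SimpleGraph W) {p q : ℕ}
    (hG : ∀ K : Finset V, G.IsClique (K : Set V) → K.card ≤ p)
    (hH : ∀ K : Finset W, H.IsClique (K : Set W) → K.card ≤ q)
    (K : Finset (V × W)) (hK : (lex G H).IsClique (K : Set (V × W))) : K.card ≤ p * q := by
  have h1 : (K.image Prod.fst).card ≤ p := by
    apply hG
    intro u hu v hv huv
    rw [coe_image] at hu hv
    obtain ⟨a, ha, rfl⟩ := hu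
    obtain ⟨b, hb, rfl⟩ := hv
    have hab : a ≠ b := fun h => huv (h ▸ rfl)
    rcases hK ha hb hab with h | ⟨h, _⟩
    · exact h
    · exact absurd h huv
  have h2 : ∀ v ∈ K.image Prod.fst, (K.filter fun x => x.1 = v).card ≤ q := by
    intro v _
    have h3 : ((K.filter fun x => x.1 = v).image Prod.snd).card =
        (K.filter fun x => x.1 = v).card := by
      apply card_image_of_injOn
      intro x hx y hy hxy
      rw [coe_filter] at hx hy
      exact Prod.ext (hx.2.trans hy.2.symm) hxy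
    rw [← h3]
    apply hH
    intro x hx y hy hxy
    rw [coe_image] at hx hy
    obtain ⟨a, ha, rfl⟩ := hx
    obtain ⟨b, hb, rfl⟩ := hy
    rw [coe_filter] at ha hb
    have hab : a ≠ b := fun h => hxy (h ▸ rfl)
    rcases hK ha.1 hb.1 hab with h | ⟨_, h⟩
    · exact absurd (ha.2.trans hb.2.symm) h.ne
    · exact h
  calc K.card ≤ q * (K.image Prod.fst).card := card_le_mul_card_image K q h2
    _ ≤ q * p := Nat.mul_le_mul_left _ h1
    _ = p * q := mul_comm _ _

theorem Dec.node' {V : Type} [inst : DecidableEq V] {P : Finset V → Prop} {S T : Finset V}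
    (h1 : Dec P S) (h2 : Dec P T) (hd : Disjoint S T) (h : P (S ∪ T)) : Dec P (S ∪ T) := by
  have e : inst = fun a b => Classical.propDecidable (a = b) := Subsingleton.elim _ _
  subst e
  exact Dec.node _ _ h1 h2 hd h

theorem Dec.fiber {G : SimpleGraph V} {H : SimpleGraph W} {r : ℕ} (v : V) {S : Finset W}
    (h : Dec (Fac H r) S) : Dec (Fac (lex G H) r) (({v} : Finset V) ×ˢ S) := by
  have key : ∀ S : Finset W, Fac H r S → Fac (lex G H) r (({v} : Finset V) ×ˢ S) := by
    rintro S ⟨X, Y, y, h1, h2⟩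
    refine ⟨fun p => X p.2, fun p => if p.1 = v then Y p.2 else ent G v p.1 • y, y, ?_, ?_⟩
    · rintro ⟨v', x⟩ hp ⟨w, z⟩ hq
      rw [mem_product, mem_singleton] at hp hq
      obtain ⟨rfl, hx⟩ := hp
      dsimp only at hx hq ⊢
      by_cases hw : w = v'
      · subst hw
        rw [if_pos rfl]
        have hz : z ∉ S := fun hz => hq ⟨rfl, hz⟩
        rw [← h1 x hx z hz]
        unfold ent
        have : (lex G H).Adj (w, x) (w, z) ↔ H.Adj x z := by
          constructor
          · rintro (h | ⟨_, h⟩)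
            · exact absurd rfl h.ne
            · exact h
          · intro h
            exact Or.inr ⟨rfl, h⟩
        simp only [this]
      · rw [if_neg hw, dotProduct_smul, h2 x hx, smul_eq_mul, mul_one]
        unfold ent
        have : (lex G H).Adj (v', x) (w, z) ↔ G.Adj v' w := by
          constructor
          · rintro (h | ⟨h, _⟩)
            · exact h
            · exact absurd h.symm hw
          · intro h
            exact Or.inl h
        simp only [this]
    · rintro ⟨v', x⟩ hp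
      rw [mem_product] at hp
      exact h2 x hp.2
  induction h with
  | leaf x hx =>
    have := key _ hx
    rw [singleton_product_singleton] at this ⊢
    exact Dec.leaf _ this
  | node S T hS hT hd h ih1 ih2 =>
    have h3 := key _ h
    rw [product_union] at h3 ⊢
    refine Dec.node' ih1 ih2 ?_ h3
    rw [disjoint_left]
    intro p hp hq
    rw [mem_product] at hp hq
    exact disjoint_left.1 hd hp.2 hq.2

theorem Dec.lex {G : SimpleGraph V} {H : SimpleGraph W} {r : ℕ}
    (hH : Dec (Fac H r) univ) {S : Finset V} (h : Dec (Fac G r) S) :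
    Dec (Fac (lex G H) r) (S ×ˢ (univ : Finset W)) := by
  have key : ∀ S : Finset V, Fac G r S →
      Fac (RankWidth.lex G H) r (S ×ˢ (univ : Finset W)) := by
    rintro S ⟨X, Y, y, h1, h2⟩
    refine ⟨fun p => X p.1, fun p => Y p.1, y, ?_, ?_⟩
    · rintro ⟨v, x⟩ hp ⟨w, z⟩ hq
      rw [mem_product] at hp hq
      dsimp only at hp hq ⊢
      have hw : w ∉ S := fun h => hq ⟨h, mem_univ _⟩
      rw [← h1 v hp.1 w hw]
      unfold ent
      have : (RankWidth.lex G H).Adj (v, x) (w, z) ↔ G.Adj v w := by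
        constructor
        · rintro (h | ⟨h, _⟩)
          · exact h
          · exfalso
            apply hw
            have h' : v = w := h
            rw [← h']
            exact hp.1
        · intro h
          exact Or.inl h
      simp only [this]
    · rintro ⟨v, x⟩ hp
      rw [mem_product] at hp
      exact h2 v hp.1
  induction h with
  | leaf v hv => exact Dec.fiber v hH
  | node S T hS hT hd h ih1 ih2 =>
    have h3 := key _ h
    rw [union_product] at h3 ⊢
    refine Dec.node' ih1 ih2 ?_ h3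
    rw [disjoint_left]
    intro p hp hq
    rw [mem_product] at hp hq
    exact disjoint_left.1 hd hp.1 hq.1

theorem Dec.of_all {P : Finset V → Prop} (h : ∀ S : Finset V, P S) {S : Finset V}
    (hS : S.Nonempty) : Dec P S := by
  induction hS using Finset.Nonempty.cons_induction with
  | singleton a => exact Dec.leaf a (h _)
  | cons a s ha hs ih =>
    have e : cons a s ha = {a} ∪ s := by
      rw [cons_eq_insert, insert_eq]
    rw [e]
    exact Dec.node _ _ (Dec.leaf a (h _)) ih (disjoint_singleton_left.2 ha) (h _)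

/-- colourings of small rank over `F_2` and their powers -/
theorem base (m k t : ℕ) (hk : 3 ≤ k) (h1 : 2 * t * k + m * (m + 3) ≤ 2 * m * k)
    (h2 : 2 * (t * k) ≤ (k - 1) * (k - 2)) :
    ∃ G : SimpleGraph (Fin (2 ^ t)), (∀ K : Finset (Fin (2 ^ t)), G.IsClique K → K.card ≤ k - 1) ∧
      (∀ K : Finset (Fin (2 ^ t)), Gᶜ.IsClique K → K.card ≤ k - 1) ∧
      ∀ S, Fac G (2 * m + 1) S := by
  obtain ⟨x, hx⟩ := Pool.Agent.Q253.TwoRank.exists_colouring m k t hk h1 h2
  have hsymm : ∀ u v, Pool.Agent.Q253.TwoRank.om m (x u) (x v) =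
      Pool.Agent.Q253.TwoRank.om m (x v) (x u) := fun u v =>
    Pool.Agent.Q253.TwoRank.symm_of_alt (Pool.Agent.Q253.TwoRank.om_alt m) _ _
  let G : SimpleGraph (Fin (2 ^ t)) :=
    { Adj := fun u v => u ≠ v ∧ Pool.Agent.Q253.TwoRank.om m (x u) (x v) = 1
      symm := ⟨fun u v h => ⟨h.1.symm, by rw [hsymm]; exact h.2⟩⟩
      loopless := ⟨fun u h => h.1 rfl⟩ }
  refine ⟨G, ?_, ?_, ?_⟩
  · intro K hK
    by_contra hcon
    push Not at hcon
    obtain ⟨S, hS, hc⟩ := exists_subset_card_eq (show k ≤ K.card by omega)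
    obtain ⟨u, hu, v, hv, huv, h⟩ := (hx S hc).2
    exact h (hK (hS hu) (hS hv) huv).2
  · intro K hK
    by_contra hcon
    push Not at hcon
    obtain ⟨S, hS, hc⟩ := exists_subset_card_eq (show k ≤ K.card by omega)
    obtain ⟨u, hu, v, hv, huv, h⟩ := (hx S hc).1
    have h3 := hK (hS hu) (hS hv) huv
    rw [SimpleGraph.compl_adj] at h3
    rcases Pool.Agent.Q253.TwoRank.zo (Pool.Agent.Q253.TwoRank.om m (x u) (x v)) with h4 | h4
    · exact h h4
    · exact h3.2 ⟨huv, h4⟩
  · intro S
    -- dimension `m + m + 1`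
    let A : Fin (2 ^ t) → (Fin m ⊕ Fin m) ⊕ Fin 1 → ZMod 2 := fun u =>
      Sum.elim (Sum.elim (x u).1 (x u).2) (fun _ => 1)
    let C : Fin (2 ^ t) → (Fin m ⊕ Fin m) ⊕ Fin 1 → ZMod 2 := fun v =>
      Sum.elim (Sum.elim (x v).2 (x v).1) (fun _ => 0)
    let y : (Fin m ⊕ Fin m) ⊕ Fin 1 → ZMod 2 := Sum.elim (fun _ => 0) (fun _ => 1)
    have hcard : Fintype.card ((Fin m ⊕ Fin m) ⊕ Fin 1) = 2 * m + 1 := by
      simp
      ring
    let e : (Fin m ⊕ Fin m) ⊕ Fin 1 ≃ Fin (2 * m + 1) := Fintype.equivFinOfCardEq hcard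
    refine ⟨fun u i => A u (e.symm i), fun v i => C v (e.symm i), fun i => y (e.symm i), ?_, ?_⟩
    · intro u hu v hv
      have huv : u ≠ v := fun h => hv (h ▸ hu)
      have h1 : (fun i => A u (e.symm i)) ⬝ᵥ (fun i => C v (e.symm i)) = A u ⬝ᵥ C v :=
        Equiv.sum_comp e.symm fun j => A u j * C v j
      rw [h1]
      have h2 : A u ⬝ᵥ C v = Pool.Agent.Q253.TwoRank.om m (x u) (x v) := by
        show ∑ j, A u j * C v j = _
        rw [Fintype.sum_sum_type, Fintype.sum_sum_type]
        simp only [A, C, Sum.elim_inl, Sum.elim_inr, mul_zero, sum_const_zero, add_zero]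
        rfl
      rw [h2]
      unfold ent
      have : G.Adj u v ↔ Pool.Agent.Q253.TwoRank.om m (x u) (x v) = 1 :=
        ⟨fun h => h.2, fun h => ⟨huv, h⟩⟩
      simp only [this]
      rcases Pool.Agent.Q253.TwoRank.zo (Pool.Agent.Q253.TwoRank.om m (x u) (x v)) with h | h <;>
        simp [h]
    · intro u hu
      have h1 : (fun i => A u (e.symm i)) ⬝ᵥ (fun i => y (e.symm i)) = A u ⬝ᵥ y :=
        Equiv.sum_comp e.symm fun j => A u j * y j
      rw [h1]
      show ∑ j, A u j * y j = _
      rw [Fintype.sum_sum_type]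
      simp [A, y]

theorem power (q t : ℕ) (hq : 3 ≤ q) (ht : 2 * t + 3 ≤ q) : ∀ j : ℕ, 1 ≤ j →
    ∃ (V : Type) (_ : Fintype V) (G : SimpleGraph V), Fintype.card V = 2 ^ (t * j) ∧
      (∀ K : Finset V, G.IsClique (K : Set V) → K.card ≤ (q - 1) ^ j) ∧
      (∀ K : Finset V, Gᶜ.IsClique (K : Set V) → K.card ≤ (q - 1) ^ j) ∧
      Dec (Fac G (2 * q + 1)) univ := by
  have hbase := base q q t hq (by nlinarith) (by
    obtain ⟨s, rfl⟩ : ∃ s, q = s + 3 := ⟨q - 3, by omega⟩
    have e : (s + 3 - 1) * (s + 3 - 2) = (s + 2) * (s + 1) := by congr 1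
    rw [e]
    nlinarith)
  obtain ⟨G0, hG1, hG2, hG3⟩ := hbase
  have hD0 : Dec (Fac G0 (2 * q + 1)) univ := by
    apply Dec.of_all hG3
    exact ⟨⟨0, by positivity⟩, mem_univ _⟩
  intro j
  induction j with
  | zero => intro h; omega
  | succ j ih =>
    intro _
    rcases Nat.eq_zero_or_pos j with rfl | hj
    · refine ⟨Fin (2 ^ t), inferInstance, G0, by simp, ?_, ?_, hD0⟩
      · simpa using hG1
      · simpa using hG2
    · obtain ⟨V, iV, G, h1, h2, h3, h4⟩ := ih hj
      refine ⟨Fin (2 ^ t) × V, inferInstance, lex G0 G, ?_, ?_, ?_, ?_⟩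
      · rw [Fintype.card_prod, h1, Fintype.card_fin, ← pow_add]
        congr 1
        ring
      · intro K hK
        rw [pow_succ']
        exact lex_clique G0 G hG1 h2 K hK
      · intro K hK
        rw [pow_succ']
        rw [lex_compl] at hK
        exact lex_clique G0ᶜ Gᶜ hG2 h3 K hK
      · rw [← univ_product_univ]
        exact Dec.lex h4 hD0

end Pool.Agent.Q253.RankWidth
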