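import Mathlib

/-!
Rank-width of graphs.
-/

open Finset

set_option autoImplicit false

namespace Pool.Agent.Q253.RankWidth

open Classical

/-- The cut-rank of a vertex set `S`: the rank over the field with two elements of the matrix with
rows `S`, columns the vertices outside `S`, and entries `1` for edges and `0` for non-edges. -/
noncomputable def cutRank {V : Type} [Fintype V] (G : SimpleGraph V) (S : Finset V) : ℕ :=
  (Matrix.of fun (u : S) (v : (Sᶜ : Finset V)) =>
    if G.Adj (u : V) (v : V) then (1 : ZMod 2) else 0).rank

/-- `Dec P S`: there is a rooted binary tree with set of leaves `S` such that the set of the leaves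
below every node (leaves and root included) has the property `P`. -/
inductive Dec {V : Type} (P : Finset V → Prop) : Finset V → Prop
  | leaf (v : V) : P {v} → Dec P {v}
  | node (S T : Finset V) : Dec P S → Dec P T → Disjoint S T → P (S ∪ T) → Dec P (S ∪ T)

/-- `G` has rank-width at most `r`: there is a binary tree whose leaves are the vertices such
that every set of leaves below a node has cut-rank at most `r`. -/
def RankWidthLE {V : Type} [Fintype V] (G : SimpleGraph V) (r : ℕ) : Prop :=
  Dec (fun S => cutRank G S ≤ r) univ

end Pool.Agent.Q253.RankWidth
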