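import Pool.Agent.Q253.RankWidth.Defs

/-!
Graphs of rank-width at most `r` have at most `(ω α) ^ D` vertices, `D ^ D ≥ 3 * 2 ^ (r + D)`.
-/

open Finset Module

set_option autoImplicit false
set_option linter.unusedSectionVars false
set_option linter.unusedVariables false

namespace Pool.Agent.Q253.RankWidth

open Classical

variable {V : Type} [Fintype V]

theorem Dec.prop {P : Finset V → Prop} {S : Finset V} (h : Dec P S) : P S := by
  cases h with
  | leaf v h => exact h
  | node S T _ _ _ h => exact h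

theorem Dec.mono {P Q : Finset V → Prop} (hPQ : ∀ S, P S → Q S) {S : Finset V} (h : Dec P S) :
    Dec Q S := by
  induction h with
  | leaf v h => exact Dec.leaf v (hPQ _ h)
  | node S T _ _ hd h ih1 ih2 => exact Dec.node S T ih1 ih2 hd (hPQ _ h)

/-- balanced cut -/
theorem Dec.balanced {P : Finset V → Prop} {S : Finset V} (h : Dec P S) (W : Finset V)
    (hW : 2 ≤ W.card) (hS : 2 * W.card < 3 * (S ∩ W).card) :
    ∃ T, P T ∧ W.card ≤ 3 * (T ∩ W).card ∧ 3 * (T ∩ W).card ≤ 2 * W.card := by
  induction h with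
  | leaf v h =>
    exfalso
    have h1 : ({v} ∩ W : Finset V).card ≤ 1 := by
      calc ({v} ∩ W : Finset V).card ≤ ({v} : Finset V).card := card_le_card inter_subset_left
        _ = 1 := card_singleton v
    omega
  | node S T hS' hT' hd h ih1 ih2 =>
    have h1 : ((S ∪ T) ∩ W).card ≤ (S ∩ W).card + (T ∩ W).card := by
      rw [union_inter_distrib_right]
      exact card_union_le _ _
    rcases le_total (S ∩ W).card (T ∩ W).card with hle | hle
    · by_cases h2 : 2 * W.card < 3 * (T ∩ W).card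
      · exact ih2 h2
      · exact ⟨T, hT'.prop, by omega, by omega⟩
    · by_cases h2 : 2 * W.card < 3 * (S ∩ W).card
      · exact ih1 h2
      · exact ⟨S, hS'.prop, by omega, by omega⟩

/-- the rows of a matrix over `F_2` take at most `2 ^ rank` values -/
theorem card_rows {m n : Type*} [Fintype m] [Fintype n] (M : Matrix m n (ZMod 2)) :
    (univ.image fun i => M.row i).card ≤ 2 ^ M.rank := by
  have h1 : Nat.card (Submodule.span (ZMod 2) (Set.range M.row)) = 2 ^ M.rank := by
    rw [Module.natCard_eq_pow_finrank (K := ZMod 2), Matrix.rank_eq_finrank_span_row]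
    simp
  have h2 : (((univ.image fun i => M.row i) : Finset (n → ZMod 2)) : Set (n → ZMod 2)) ⊆
      (Submodule.span (ZMod 2) (Set.range M.row) : Set (n → ZMod 2)) := by
    intro x hx
    simp only [coe_image, coe_univ, Set.image_univ] at hx
    exact Submodule.subset_span hx
  rw [← h1, ← Set.ncard_coe_finset]
  exact Set.ncard_le_ncard h2 (Set.toFinite _)

theorem popular (G : SimpleGraph V) (T W : Finset V) (r : ℕ) (hT : cutRank G T ≤ r)
    (hne : (T ∩ W).Nonempty) : ∃ A ⊆ T ∩ W, (T ∩ W).card ≤ 2 ^ r * A.card ∧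
      ∀ a ∈ A, ∀ a' ∈ A, ∀ b ∈ W \ T, (G.Adj a b ↔ G.Adj a' b) := by
  let g : V → ((Tᶜ : Finset V) → ZMod 2) := fun u v => if G.Adj u (v : V) then 1 else 0
  set M : Matrix T (Tᶜ : Finset V) (ZMod 2) := Matrix.of fun (u : T) (v : (Tᶜ : Finset V)) =>
    if G.Adj (u : V) (v : V) then (1 : ZMod 2) else 0 with hM
  have hr : M.rank ≤ r := hT
  have h1 : (T ∩ W).image g ⊆ univ.image fun i => M.row i := by
    intro y hy
    rw [mem_image] at hy
    obtain ⟨u, hu, rfl⟩ := hy
    rw [mem_image]
    exact ⟨⟨u, (mem_inter.1 hu).1⟩, mem_univ _, rfl⟩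
  have h2 : ((T ∩ W).image g).card ≤ 2 ^ r :=
    (card_le_card h1).trans ((card_rows M).trans (Nat.pow_le_pow_right (by norm_num) hr))
  obtain ⟨y, hy, hmax⟩ := exists_max_image ((T ∩ W).image g)
    (fun y => ((T ∩ W).filter fun x => g x = y).card) (hne.image g)
  refine ⟨(T ∩ W).filter fun x => g x = y, filter_subset _ _, ?_, ?_⟩
  · have h3 := card_le_mul_card_image (f := g) (s := T ∩ W)
      ((T ∩ W).filter fun x => g x = y).card hmax
    calc (T ∩ W).card ≤ ((T ∩ W).filter fun x => g x = y).card * ((T ∩ W).image g).card := h3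
      _ ≤ ((T ∩ W).filter fun x => g x = y).card * 2 ^ r := Nat.mul_le_mul_left _ h2
      _ = _ := mul_comm _ _
  · intro a ha a' ha' b hb
    have hab : g a = g a' := (mem_filter.1 ha).2.trans (mem_filter.1 ha').2.symm
    have hbT : b ∈ Tᶜ := by
      rw [mem_compl]
      exact (mem_sdiff.1 hb).2
    have := congrFun hab ⟨b, hbT⟩
    simp only [g] at this
    by_cases c1 : G.Adj a b <;> by_cases c2 : G.Adj a' b <;> simp_all

/-- the largest size of a clique inside `W` -/
noncomputable def om (G : SimpleGraph V) (W : Finset V) : ℕ :=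
  (W.powerset.filter fun K : Finset V => G.IsClique (K : Set V)).sup card

theorem om_le (G : SimpleGraph V) {W K : Finset V} (hK : K ⊆ W) (hc : G.IsClique (K : Set V)) :
    K.card ≤ om G W :=
  le_sup (f := card) (mem_filter.2 ⟨mem_powerset.2 hK, hc⟩)

theorem om_mem (G : SimpleGraph V) (W : Finset V) : ∃ K ⊆ W, G.IsClique (K : Set V) ∧
    K.card = om G W := by
  have hne : (W.powerset.filter fun K : Finset V => G.IsClique (K : Set V)).Nonempty :=
    ⟨∅, mem_filter.2 ⟨mem_powerset.2 (empty_subset _), by simp⟩⟩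
  obtain ⟨K, hK, h⟩ := exists_mem_eq_sup _ hne card
  exact ⟨K, mem_powerset.1 (mem_filter.1 hK).1, (mem_filter.1 hK).2, h.symm⟩

theorem om_mono (G : SimpleGraph V) {W W' : Finset V} (h : W ⊆ W') : om G W ≤ om G W' := by
  obtain ⟨K, hK, hc, he⟩ := om_mem G W
  rw [← he]
  exact om_le G (hK.trans h) hc

theorem om_pos (G : SimpleGraph V) {W : Finset V} (h : W.Nonempty) : 1 ≤ om G W := by
  obtain ⟨v, hv⟩ := h
  have := om_le G (W := W) (K := {v}) (singleton_subset_iff.2 hv) (by simp)
  simpa using this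

theorem om_add (G : SimpleGraph V) {A B W : Finset V} (hA : A ⊆ W) (hB : B ⊆ W)
    (h : ∀ a ∈ A, ∀ b ∈ B, G.Adj a b) : om G A + om G B ≤ om G W := by
  obtain ⟨K, hK, hc, he⟩ := om_mem G A
  obtain ⟨L, hL, hd, hf⟩ := om_mem G B
  have hdis : Disjoint K L := by
    rw [disjoint_left]
    intro x hx hy
    exact (h x (hK hx) x (hL hy)).ne rfl
  rw [← he, ← hf, ← card_union_of_disjoint hdis]
  apply om_le G (union_subset (hK.trans hA) (hL.trans hB))
  intro x hx y hy hxy
  rw [coe_union, Set.mem_union] at hx hy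
  rcases hx with hx | hx <;> rcases hy with hy | hy
  · exact hc hx hy hxy
  · exact h x (hK hx) y (hL hy)
  · exact (h y (hK hy) x (hL hx)).symm
  · exact hd hx hy hxy

/-- the numerical core -/
theorem numeric {n ω α a b r D : ℕ} (hD : 3 * 2 ^ (r + D) ≤ D ^ D) (hD1 : 1 ≤ D)
    (ha : 1 ≤ a) (hb : 1 ≤ b) (haω : a ≤ ω) (hbα : b ≤ α)
    (h1 : n ≤ 3 * 2 ^ r * (a * b) ^ D)
    (h2 : n ≤ 3 * (((ω - a) * α) ^ D + (ω * (α - b)) ^ D)) : n ≤ (ω * α) ^ D := by
  by_contra hcon
  push Not at hcon
  have hω : (0 : ℝ) < ω := by exact_mod_cast (lt_of_lt_of_le ha haω)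
  have hα : (0 : ℝ) < α := by exact_mod_cast (lt_of_lt_of_le hb hbα)
  have hD0 : (0 : ℝ) < D := by exact_mod_cast hD1
  set x : ℝ := a / ω with hx
  set y : ℝ := b / α with hy
  have hx0 : 0 < x := by
    have : (0 : ℝ) < a := by exact_mod_cast ha
    positivity
  have hy0 : 0 < y := by
    have : (0 : ℝ) < b := by exact_mod_cast hb
    positivity
  have hx1 : x ≤ 1 := by
    rw [hx, div_le_one hω]
    exact_mod_cast haω
  have hy1 : y ≤ 1 := by
    rw [hy, div_le_one hα]
    exact_mod_cast hbα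
  have hax : (a : ℝ) = x * ω := by rw [hx]; field_simp
  have hby : (b : ℝ) = y * α := by rw [hy]; field_simp
  have hP : (0 : ℝ) < ((ω : ℝ) * α) ^ D := by positivity
  have hc : ((ω : ℝ) * α) ^ D < n := by exact_mod_cast hcon
  have g1 : 1 < 3 * 2 ^ r * (x * y) ^ D := by
    have h1' : (n : ℝ) ≤ 3 * 2 ^ r * ((a : ℝ) * b) ^ D := by exact_mod_cast h1
    have e : ((a : ℝ) * b) ^ D = (x * y) ^ D * (ω * α) ^ D := by
      rw [hax, hby, ← mul_pow]
      congr 1
      ring
    rw [e, ← mul_assoc] at h1'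
    by_contra hle
    push Not at hle
    have := mul_le_mul_of_nonneg_right hle hP.le
    linarith
  have g2 : 1 < 3 * ((1 - x) ^ D + (1 - y) ^ D) := by
    have h2' : (n : ℝ) ≤ 3 * ((((ω - a : ℕ) : ℝ) * α) ^ D + ((ω : ℝ) * ((α - b : ℕ) : ℝ)) ^ D) := by
      exact_mod_cast h2
    rw [Nat.cast_sub haω, Nat.cast_sub hbα] at h2'
    have e1 : (((ω : ℝ) - a) * α) ^ D = (1 - x) ^ D * (ω * α) ^ D := by
      rw [hax, ← mul_pow]
      congr 1
      ring
    have e2 : ((ω : ℝ) * (α - b)) ^ D = (1 - y) ^ D * (ω * α) ^ D := by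
      rw [hby, ← mul_pow]
      congr 1
      ring
    rw [e1, e2, ← add_mul, ← mul_assoc] at h2'
    by_contra hle
    push Not at hle
    have := mul_le_mul_of_nonneg_right hle hP.le
    linarith
  -- the smaller one
  obtain ⟨z, hz0, hz1, hzx, hzy, hz⟩ : ∃ z : ℝ, 0 < z ∧ z ≤ 1 ∧ z ≤ x ∧ z ≤ y ∧ x * y ≤ z := by
    refine ⟨min x y, lt_min hx0 hy0, (min_le_left _ _).trans hx1, min_le_left _ _,
      min_le_right _ _, le_min ?_ ?_⟩ <;> nlinarith
  have g3 : (1 - z) ^ D > 1 / 6 := by
    have e1 : (1 - x) ^ D ≤ (1 - z) ^ D := pow_le_pow_left₀ (by linarith) (by linarith) _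
    have e2 : (1 - y) ^ D ≤ (1 - z) ^ D := pow_le_pow_left₀ (by linarith) (by linarith) _
    linarith
  have g4 : (1 - z) ^ D ≤ Real.exp (-(z * D)) := by
    calc (1 - z) ^ D ≤ (Real.exp (-z)) ^ D :=
          pow_le_pow_left₀ (by linarith) (by linarith [Real.add_one_le_exp (-z)]) _
      _ = Real.exp (-(z * D)) := by
          rw [← Real.exp_nat_mul]
          congr 1
          ring
  have g5 : z * D < 2 := by
    by_contra hle
    push Not at hle
    have e1 : Real.exp (-(z * D)) ≤ Real.exp (-2) := Real.exp_le_exp.2 (by linarith)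
    have e2 : Real.exp (-2) < 1 / 6 := by
      have e3 : (6 : ℝ) < Real.exp 2 := by
        have := Real.exp_one_gt_d9
        have e4 : Real.exp 2 = Real.exp 1 * Real.exp 1 := by
          rw [← Real.exp_add]
          norm_num
        rw [e4]
        nlinarith
      rw [Real.exp_neg, one_div]
      exact inv_strictAnti₀ (by norm_num) e3
    linarith
  have g6 : (x * y) ^ D ≤ (2 / D) ^ D := by
    refine pow_le_pow_left₀ (by positivity) (hz.trans ?_) _
    rw [le_div_iff₀ hD0]
    exact g5.le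
  have g7 : (3 : ℝ) * 2 ^ r * (2 / D) ^ D ≤ 1 := by
    have hD' : (3 : ℝ) * 2 ^ (r + D) ≤ (D : ℝ) ^ D := by exact_mod_cast hD
    rw [div_pow, ← mul_div_assoc, div_le_one (by positivity)]
    calc (3 : ℝ) * 2 ^ r * 2 ^ D = 3 * 2 ^ (r + D) := by rw [pow_add]; ring
      _ ≤ _ := hD'
  have g8 : (3 : ℝ) * 2 ^ r * (x * y) ^ D ≤ 3 * 2 ^ r * (2 / D) ^ D :=
    mul_le_mul_of_nonneg_left g6 (by positivity)
  linarith

/-- **Upper bound.** -/
theorem upper (G : SimpleGraph V) {r D : ℕ} (hG : RankWidthLE G r) (hD1 : 1 ≤ D)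
    (hD : 3 * 2 ^ (r + D) ≤ D ^ D) : ∀ (n : ℕ) (W : Finset V), W.card = n →
      n ≤ (om G W * om Gᶜ W) ^ D := by
  intro n
  induction n using Nat.strong_induction_on with
  | _ n ih =>
    intro W hW
    rcases Nat.lt_or_ge n 2 with hn | hn
    · rcases Nat.eq_zero_or_pos n with rfl | h0
      · exact Nat.zero_le _
      · have hne : W.Nonempty := by
          rw [← card_pos]
          omega
        have h1 := om_pos G hne
        have h2 := om_pos Gᶜ hne
        have : 1 ≤ (om G W * om Gᶜ W) ^ D := Nat.one_le_pow _ _ (Nat.mul_pos h1 h2)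
        omega
    · obtain ⟨T, hT, hT1, hT2⟩ := Dec.balanced hG W (by omega) (by
        rw [univ_inter]
        omega)
      have hTne : (T ∩ W).Nonempty := by
        rw [← card_pos]
        omega
      obtain ⟨A, hA, hAc, hAB⟩ := popular G T W r hT hTne
      have hAne : A.Nonempty := by
        rw [← card_pos]
        by_contra h
        have h0 : A.card = 0 := by omega
        rw [h0, mul_zero] at hAc
        rw [← card_pos] at hTne
        omega
      obtain ⟨a0, ha0⟩ := hAne
      have hAne : A.Nonempty := ⟨a0, ha0⟩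
      set B1 := (W \ T).filter fun b => G.Adj a0 b with hB1
      set B2 := (W \ T).filter fun b => ¬ G.Adj a0 b with hB2
      have hBc : B1.card + B2.card = (W \ T).card := card_filter_add_card_filter_not _
      have hsd : (W \ T).card + (T ∩ W).card = W.card := by
        rw [inter_comm]
        exact card_sdiff_add_card_inter W T
      have hAW : A ⊆ W := hA.trans inter_subset_right
      have hB1W : B1 ⊆ W := (filter_subset _ _).trans sdiff_subset
      have hB2W : B2 ⊆ W := (filter_subset _ _).trans sdiff_subset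
      have hAle : A.card ≤ (T ∩ W).card := card_le_card hA
      have i1 := ih A.card (by omega) A rfl
      have i2 := ih B1.card (by omega) B1 rfl
      have i3 := ih B2.card (by omega) B2 rfl
      have j1 : om G A + om G B1 ≤ om G W := by
        apply om_add G hAW hB1W
        intro a ha b hb
        rw [hB1, mem_filter] at hb
        exact (hAB a0 ha0 a ha b hb.1).1 hb.2
      have j2 : om Gᶜ A + om Gᶜ B2 ≤ om Gᶜ W := by
        apply om_add Gᶜ hAW hB2W
        intro a ha b hb
        rw [hB2, mem_filter] at hb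
        rw [SimpleGraph.compl_adj]
        refine ⟨?_, fun h => hb.2 ((hAB a0 ha0 a ha b hb.1).2 h)⟩
        rintro rfl
        exact (mem_sdiff.1 hb.1).2 (mem_inter.1 (hA ha)).1
      have k1 := om_mono Gᶜ hB1W
      have k2 := om_mono G hB2W
      refine numeric (a := om G A) (b := om Gᶜ A) hD hD1 (om_pos G hAne) (om_pos Gᶜ hAne)
        (om_mono G hAW) (om_mono Gᶜ hAW) ?_ ?_
      · calc n ≤ 3 * (T ∩ W).card := by omega
          _ ≤ 3 * (2 ^ r * A.card) := Nat.mul_le_mul_left _ hAc
          _ ≤ 3 * (2 ^ r * (om G A * om Gᶜ A) ^ D) := by gcongr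
          _ = _ := by ring
      · calc n ≤ 3 * (B1.card + B2.card) := by omega
          _ ≤ 3 * ((om G B1 * om Gᶜ B1) ^ D + (om G B2 * om Gᶜ B2) ^ D) := by gcongr
          _ ≤ 3 * (((om G W - om G A) * om Gᶜ W) ^ D + (om G W * (om Gᶜ W - om Gᶜ A)) ^ D) := by
            have l1 : om G B1 ≤ om G W - om G A := by omega
            have l2 : om Gᶜ B2 ≤ om Gᶜ W - om Gᶜ A := by omega
            gcongr

end Pool.Agent.Q253.RankWidth
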